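import Mathlib
import Pool.Agent.H29.QuatM

namespace Pool.Agent.Results.MP_377342_al.Spectral
open Quaternion Matrix Pool.Agent.H29.QuatM

theorem result (n : ℕ) (H A : Mat n) (hH : IsUnit H) (hs : Hᴴ = -H) (hA : H * A = -(Aᴴ * H))
    (N : Sub n) (hN : Inv A N) (hN0 : Neutral star (H * A) N)
    (S : Set ℍ[ℝ]) (hS : CSet A S) (hNS : Eig0 A N ⊆ S) :
    (∃ L : Sub n, N ≤ L ∧ Inv A L ∧ Maximal (Nonneg fun x => form star (H * A) x x) L ∧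
      Eig0 A L = S) ∧
    (∃ L : Sub n, N ≤ L ∧ Inv A L ∧ Maximal (Nonpos fun x => form star (H * A) x x) L ∧
      Eig0 A L = S) := by
  obtain ⟨⟨L, h1, h2, h3, h4, h5⟩, ⟨L', h1', h2', h3', h4', h5'⟩⟩ := std H A hH hs hA S
    hS.1.2.2.1 (dich hS) N hN hN0 hNS
  exact ⟨⟨L, h1, h2, h3, h4.antisymm fun l hl =>
      h5 l hl (hS.1.2.2.2 l hl) (hS.1.2.1 l hl) (hS.1.1 hl)⟩,
    ⟨L', h1', h2', h3', h4'.antisymm fun l hl =>
      h5' l hl (hS.1.2.2.2 l hl) (hS.1.2.1 l hl) (hS.1.1 hl)⟩⟩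

end Pool.Agent.Results.MP_377342_al.Spectral
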